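import Pool.Agent.W990.EB.Stm

/-!
# Project EB (helper990), task EB-G (helper311): the integral of `G0`
-/

set_option autoImplicit false
open Finset

namespace Pool.Agent.W311.EB

open Pool.Agent.W990.EB

/-- the primitive -/
noncomputable def rho (N : ℝ) : ℝ := -N ^ 2 - N / 2 - 11 / 4

/-- `√t ∑ ρ(2ta) e^{-2ta}` -/
noncomputable def H (S : Finset ℕ) (t : ℝ) : ℝ :=
  ∑ a ∈ S, Real.sqrt t * (rho (2 * t * a) * Real.exp (-(2 * t * a)))

theorem H_deriv (S : Finset ℕ) {t : ℝ} (ht : 0 < t) :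
    HasDerivAt (H S) ((G0 S t - 37 / 8 * f S (2 * t)) / Real.sqrt t) t := by
  have e : (G0 S t - 37 / 8 * f S (2 * t)) / Real.sqrt t = ∑ a ∈ S,
      (1 / (2 * Real.sqrt t) * (rho (2 * t * a) * Real.exp (-(2 * t * a))) +
        Real.sqrt t * ((-(2 * (2 * t * a) * (2 * a)) - (2 * a) / 2) * Real.exp (-(2 * t * a)) +
          rho (2 * t * a) * (Real.exp (-(2 * t * a)) * (-(2 * a))))) := by
    unfold G0 f
    rw [Finset.mul_sum, ← Finset.sum_sub_distrib, Finset.sum_div]
    refine Finset.sum_congr rfl fun a _ => ?_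
    have hs : 0 < Real.sqrt t := Real.sqrt_pos.2 ht
    have hss : Real.sqrt t ^ 2 = t := Real.sq_sqrt ht.le
    rw [div_eq_iff hs.ne']
    have h1 : 1 / (2 * Real.sqrt t) * Real.sqrt t = 1 / 2 := by field_simp
    unfold qe rho
    set E : ℝ := Real.exp (-(2 * t * a)) with hE
    set s : ℝ := Real.sqrt t with hsd
    rw [← hss] at *
    have h2 : s * s⁻¹ = 1 := mul_inv_cancel₀ hs.ne'
    field_simp
    ring
  rw [e]
  unfold H
  apply HasDerivAt.fun_sum
  intro a _
  have h1 : HasDerivAt (fun t : ℝ => Real.sqrt t) (1 / (2 * Real.sqrt t)) t :=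
    Real.hasDerivAt_sqrt ht.ne'
  have h2 : HasDerivAt (fun t : ℝ => 2 * t * (a : ℝ)) (2 * (a : ℝ)) t := by
    have := ((hasDerivAt_id t).const_mul (2 : ℝ)).mul_const (a : ℝ)
    simpa using this
  have h3 : HasDerivAt (fun t : ℝ => rho (2 * t * (a : ℝ)))
      (-(2 * (2 * t * a) * (2 * a)) - (2 * a) / 2) t := by
    unfold rho
    have h4 := (((h2.fun_pow 2).fun_neg.fun_sub (h2.div_const 2)).sub_const (11 / 4))
    refine h4.congr_deriv ?_
    push_cast
    ring
  have h5 : HasDerivAt (fun t : ℝ => Real.exp (-(2 * t * (a : ℝ))))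
      (Real.exp (-(2 * t * a)) * (-(2 * a))) t := h2.neg.exp
  exact h1.mul (h3.mul h5)

theorem rho_bd {N : ℝ} (hN : 0 ≤ N) : |rho N| * Real.exp (-N) ≤ 8 * Real.exp (-(N / 2)) := by
  have h1 : |rho N| ≤ 8 * Real.exp (N / 2) := by
    have h2 := Real.quadratic_le_exp_of_nonneg (by positivity : 0 ≤ N / 2)
    unfold rho
    rw [abs_le]
    constructor <;> nlinarith
  calc |rho N| * Real.exp (-N) ≤ 8 * Real.exp (N / 2) * Real.exp (-N) :=
        mul_le_mul_of_nonneg_right h1 (Real.exp_pos _).le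
    _ = 8 * Real.exp (-(N / 2)) := by
        rw [mul_assoc, ← Real.exp_add]
        congr 2
        ring

theorem H_bd (hr : S_RS) {R : ℕ} {S : Finset ℕ} (hS : ∀ n, r S n ≤ R) {t : ℝ} (ht : 0 < t)
    (ht1 : t ≤ 1) : |H S t| ≤ 8 * Real.sqrt (2 * R) := by
  have h1 : |H S t| ≤ 8 * (Real.sqrt t * f S t) := by
    unfold H f
    rw [Finset.mul_sum, Finset.mul_sum]
    refine (Finset.abs_sum_le_sum_abs _ _).trans (Finset.sum_le_sum fun a _ => ?_)
    rw [abs_mul, abs_mul, abs_of_nonneg (Real.sqrt_nonneg _), abs_of_pos (Real.exp_pos _)]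
    have h2 := rho_bd (by positivity : 0 ≤ 2 * t * (a : ℝ))
    have h3 : 2 * t * (a : ℝ) / 2 = t * a := by ring
    rw [h3] at h2
    calc Real.sqrt t * (|rho (2 * t * a)| * Real.exp (-(2 * t * a)))
        ≤ Real.sqrt t * (8 * Real.exp (-(t * a))) :=
          mul_le_mul_of_nonneg_left h2 (Real.sqrt_nonneg _)
      _ = 8 * (Real.sqrt t * Real.exp (-(t * a))) := by ring
  have h2 : Real.sqrt t * f S t ≤ Real.sqrt (2 * R) := by
    apply Real.le_sqrt_of_sq_le
    rw [mul_pow, Real.sq_sqrt ht.le]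
    have h3 := mul_le_mul_of_nonneg_left (hr R S t hS ht) ht.le
    refine h3.trans ?_
    have h4 : t * ((R : ℝ) * (1 / t + 1)) = R * (1 + t) := by field_simp
    rw [h4]
    have : (0 : ℝ) ≤ R := Nat.cast_nonneg _
    nlinarith
  linarith

theorem g (hr : S_RS) : S_G := by
  intro R
  refine ⟨16 * Real.sqrt (2 * R), by positivity, fun S hS ε hε hε1 => ?_⟩
  have h1 : ∫ t in ε..1, (G0 S t - 37 / 8 * f S (2 * t)) / Real.sqrt t = H S 1 - H S ε := by
    apply intervalIntegral.integral_eq_sub_of_hasDerivAt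
    · intro t ht
      rw [Set.uIcc_of_le hε1] at ht
      exact H_deriv S (lt_of_lt_of_le hε ht.1)
    · apply ContinuousOn.intervalIntegrable
      rw [Set.uIcc_of_le hε1]
      apply ContinuousOn.div
      · unfold G0 f qe
        fun_prop
      · exact Real.continuous_sqrt.continuousOn
      · intro t ht
        exact (Real.sqrt_pos.2 (lt_of_lt_of_le hε ht.1)).ne'
  rw [h1]
  have h2 := H_bd hr hS one_pos le_rfl
  have h3 := H_bd hr hS hε hε1
  calc |H S 1 - H S ε| ≤ |H S 1| + |H S ε| := abs_sub _ _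
    _ ≤ 16 * Real.sqrt (2 * R) := by linarith

end Pool.Agent.W311.EB
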